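import Pool.Agent.N984.QX.Stm2

/-! Project QX (helper984), leaf AV (helper793): averaging over permutations. -/

set_option autoImplicit false

namespace Pool.Agent.N793.QX

open Finset

theorem exists_perm {n : ℕ} {X Y : Finset (Fin n)} (h : X.card = Y.card) :
    ∃ q : Equiv.Perm (Fin n), X.map q.toEmbedding = Y := by
  classical
  let e : {x // x ∈ X} ≃ {x // x ∈ Y} := Finset.equivOfCardEq h
  refine ⟨e.extendSubtype, ?_⟩
  refine Finset.eq_of_subset_of_card_le ?_ (by rw [Finset.card_map, h])
  intro y hy
  obtain ⟨x, hx, rfl⟩ := Finset.mem_map.1 hy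
  exact e.extendSubtype_mem x hx

theorem fiber_eq {n : ℕ} (A : Finset (Fin n)) {X Y : Finset (Fin n)} (h : X.card = Y.card) :
    (univ.filter fun p : Equiv.Perm (Fin n) => A.map p.toEmbedding = X).card ≤
      (univ.filter fun p : Equiv.Perm (Fin n) => A.map p.toEmbedding = Y).card := by
  classical
  obtain ⟨q, hq⟩ := exists_perm h
  refine Finset.card_le_card_of_injOn (fun p => p.trans q) ?_ ?_
  · intro p hp
    have hp' := (Finset.mem_filter.1 hp).2
    refine Finset.mem_coe.2 (Finset.mem_filter.2 ⟨Finset.mem_univ _, ?_⟩)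
    rw [← hq, ← hp', Finset.map_map]
    rfl
  · intro p _ p' _ hpp
    have h1 : p.trans q = p'.trans q := hpp
    ext i
    have h2 := congrArg (fun r : Equiv.Perm (Fin n) => r i) h1
    simp only [Equiv.trans_apply] at h2
    rw [q.injective h2]

theorem fiber_card {n k : ℕ} (A : Finset (Fin n)) (hA : A.card = k) {X : Finset (Fin n)} (hX : X.card = k) :
    n.choose k * (univ.filter fun p : Equiv.Perm (Fin n) => A.map p.toEmbedding = X).card = n.factorial := by
  classical
  have h1 : (univ : Finset (Equiv.Perm (Fin n))).card = ∑ Y ∈ powersetCard k (univ : Finset (Fin n)),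
      (univ.filter fun p : Equiv.Perm (Fin n) => A.map p.toEmbedding = Y).card := by
    refine Finset.card_eq_sum_card_fiberwise ?_
    intro p _
    refine Finset.mem_coe.2 (Finset.mem_powersetCard.2 ⟨Finset.subset_univ _, ?_⟩)
    rw [Finset.card_map, hA]
  rw [Finset.card_univ, Fintype.card_perm, Fintype.card_fin] at h1
  rw [h1, Finset.sum_congr rfl (g := fun _ =>
    (univ.filter fun p : Equiv.Perm (Fin n) => A.map p.toEmbedding = X).card), Finset.sum_const,
    Finset.card_powersetCard, Finset.card_univ, Fintype.card_fin, smul_eq_mul]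
  intro Y hY
  have hY' := (Finset.mem_powersetCard.1 hY).2
  exact le_antisymm (fiber_eq A (by rw [hX, hY'])) (fiber_eq A (by rw [hX, hY']))

theorem t_AV : Pool.Agent.N984.QX.S_AV := by
  classical
  intro n k β I _ A Bad hA hβ
  obtain ⟨Bk, hBk⟩ : ∃ Bk : Finset (Finset (Fin n)), Bk = (powersetCard k univ).filter Bad := ⟨_, rfl⟩
  have hB : {X : Finset (Fin n) | X.card = k ∧ Bad X}.ncard = Bk.card := by
    rw [← Set.ncard_coe_finset, hBk]
    congr 1
    ext X
    simp [Finset.mem_powersetCard]
  have hβ' : ∀ p : Equiv.Perm (Fin n), β ≤ (univ.filter fun t => Bad ((A t).map p.toEmbedding)).card := by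
    intro p
    refine (hβ p).trans (le_of_eq ?_)
    rw [← Set.ncard_coe_finset]
    congr 1
    ext t
    simp
  have hfib : ∀ t, n.choose k * (univ.filter fun p : Equiv.Perm (Fin n) => Bad ((A t).map p.toEmbedding)).card =
      Bk.card * n.factorial := by
    intro t
    have h1 : (univ.filter fun p : Equiv.Perm (Fin n) => Bad ((A t).map p.toEmbedding)).card =
        ∑ X ∈ Bk, (univ.filter fun p : Equiv.Perm (Fin n) => (A t).map p.toEmbedding = X).card := by
      rw [Finset.card_eq_sum_card_fiberwise (f := fun p : Equiv.Perm (Fin n) => (A t).map p.toEmbedding) (t := Bk)]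
      · refine Finset.sum_congr rfl fun X hX => ?_
        congr 1
        ext p
        rw [Finset.mem_filter, Finset.mem_filter, Finset.mem_filter]
        constructor
        · rintro ⟨⟨h2, _⟩, h3⟩
          exact ⟨h2, h3⟩
        · rintro ⟨h2, h3⟩
          refine ⟨⟨h2, ?_⟩, h3⟩
          rw [h3]
          rw [hBk] at hX
          exact (Finset.mem_filter.1 hX).2
      · intro p hp
        rw [hBk]
        refine Finset.mem_coe.2 (Finset.mem_filter.2 ⟨Finset.mem_powersetCard.2 ⟨Finset.subset_univ _, ?_⟩, ?_⟩)
        · rw [Finset.card_map, hA]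
        · exact (Finset.mem_filter.1 hp).2
    rw [h1, Finset.mul_sum, Finset.sum_congr rfl (g := fun _ => n.factorial), Finset.sum_const, smul_eq_mul]
    intro X hX
    rw [hBk] at hX
    exact fiber_card (A t) (hA t) (Finset.mem_powersetCard.1 (Finset.mem_filter.1 hX).1).2
  have hdc : ∑ p : Equiv.Perm (Fin n), (univ.filter fun t => Bad ((A t).map p.toEmbedding)).card =
      ∑ t, (univ.filter fun p : Equiv.Perm (Fin n) => Bad ((A t).map p.toEmbedding)).card := by
    simp only [Finset.card_filter]
    rw [Finset.sum_comm]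
  have hlow : n.factorial * β ≤ ∑ p : Equiv.Perm (Fin n), (univ.filter fun t => Bad ((A t).map p.toEmbedding)).card := by
    have h1 : ∑ _p : Equiv.Perm (Fin n), β ≤
        ∑ p : Equiv.Perm (Fin n), (univ.filter fun t => Bad ((A t).map p.toEmbedding)).card :=
      Finset.sum_le_sum fun p _ => hβ' p
    rw [Finset.sum_const, Finset.card_univ, Fintype.card_perm, Fintype.card_fin, smul_eq_mul] at h1
    exact h1
  rw [hB]
  have h2 : n.factorial * (β * n.choose k) ≤ n.factorial * (Fintype.card I * Bk.card) := by
    calc n.factorial * (β * n.choose k) = n.choose k * (n.factorial * β) := by ring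
      _ ≤ n.choose k * ∑ p : Equiv.Perm (Fin n), (univ.filter fun t => Bad ((A t).map p.toEmbedding)).card :=
        Nat.mul_le_mul_left _ hlow
      _ = ∑ t, n.choose k * (univ.filter fun p : Equiv.Perm (Fin n) => Bad ((A t).map p.toEmbedding)).card := by
        rw [hdc, Finset.mul_sum]
      _ = ∑ _t : I, Bk.card * n.factorial := Finset.sum_congr rfl fun t _ => hfib t
      _ = n.factorial * (Fintype.card I * Bk.card) := by
        rw [Finset.sum_const, Finset.card_univ, smul_eq_mul]; ring
  exact Nat.le_of_mul_le_mul_left h2 (Nat.factorial_pos n)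

end Pool.Agent.N793.QX
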